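import Pool.Agent.H586.AF.C

/-!
# AF-MO: moments from Schwinger-Dyson identities
-/

set_option autoImplicit false

open MeasureTheory Matrix Finset Filter Topology

namespace Pool.Agent.H664.AF

open Pool.Agent.H586.AF

lemma mo_solve {I : Type} [Fintype I] [DecidableEq I] (Q C : Matrix I I ℝ) (h : C * Q = 1)
    (x b : I → ℝ) (hx : ∀ i, ∑ m, Q i m * x m = b i) (n : I) : x n = ∑ i, C n i * b i := by
  have h1 : Q *ᵥ x = b := by
    ext i
    exact hx i
  have h2 : C *ᵥ b = x := by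
    rw [← h1, Matrix.mulVec_mulVec, h, Matrix.one_mulVec]
  rw [← congrFun h2 n]
  rfl

lemma mo_err {I : Type} [Fintype I] (C : Matrix I I ℝ) (K : ℝ) (hK : 0 ≤ K)
    (hC : ∀ i j, |C i j| ≤ K) (hcard : (Fintype.card I : ℝ) ≤ K) (e : I → ℝ) (t : ℝ)
    (he : ∀ i, |e i| ≤ t) (n : I) : |∑ i, C n i * e i| ≤ K ^ 2 * t := by
  have ht : 0 ≤ t := (abs_nonneg _).trans (he n)
  calc |∑ i, C n i * e i| ≤ ∑ i, |C n i * e i| := Finset.abs_sum_le_sum_abs _ _
    _ ≤ ∑ _i : I, K * t := Finset.sum_le_sum fun i _ => by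
        rw [abs_mul]
        exact mul_le_mul (hC n i) (he i) (abs_nonneg _) hK
    _ = Fintype.card I * (K * t) := by simp
    _ ≤ K * (K * t) := mul_le_mul_of_nonneg_right hcard (by positivity)
    _ = K ^ 2 * t := by ring

section

variable {Ω : Type} [MeasurableSpace Ω] {P : Measure Ω} [IsProbabilityMeasure P]

lemma mo_int {g : Ω → ℝ} (hg : Measurable g) (B : ℝ) (hB : ∀ ω, |g ω| ≤ B) : Integrable g P :=
  Integrable.of_bound hg.aestronglyMeasurable B (ae_of_all _ fun ω => by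
    rw [Real.norm_eq_abs]; exact hB ω)

lemma mo_pow {f : Ω → ℝ} (hf : Measurable f) (f0 : ∀ ω, 0 ≤ f ω) {K : ℝ}
    (hfK : ∀ ω, f ω ≤ K) (a : ℕ) : Integrable (fun ω => f ω ^ a) P :=
  mo_int (hf.pow_const a) (K ^ a) fun ω => by
    rw [abs_of_nonneg (pow_nonneg (f0 ω) a)]
    exact pow_le_pow_left₀ (f0 ω) (hfK ω) a

lemma mo_mom {f : Ω → ℝ} (hf : Measurable f) (f0 : ∀ ω, 0 ≤ f ω) {K M p : ℝ} (hK : 0 ≤ K)
    (hM : 0 ≤ M) (hfK : ∀ ω, f ω ≤ K) (hp : P.real {ω | M < f ω} ≤ p) (a : ℕ) :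
    ∫ ω, f ω ^ a ∂P ≤ M ^ a + K ^ a * p := by
  have hs : MeasurableSet {ω | M < f ω} := measurableSet_lt measurable_const hf
  have i2 : Integrable ({ω | M < f ω}.indicator fun _ => K ^ a) P :=
    (integrable_const (K ^ a)).indicator hs
  calc ∫ ω, f ω ^ a ∂P ≤ ∫ ω, (M ^ a + {ω | M < f ω}.indicator (fun _ => K ^ a) ω) ∂P := by
        refine integral_mono (mo_pow hf f0 hfK a) ((integrable_const _).add i2) fun ω => ?_
        by_cases h : M < f ω
        · have h' : ω ∈ {ω | M < f ω} := h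
          simp only [Set.indicator_of_mem h']
          have h1 := pow_le_pow_left₀ (f0 ω) (hfK ω) a
          have h2 := pow_nonneg hM a
          linarith
        · have h' : ω ∉ {ω | M < f ω} := h
          simp only [Set.indicator_of_notMem h', add_zero]
          exact pow_le_pow_left₀ (f0 ω) (not_lt.1 h) a
    _ = M ^ a + K ^ a * P.real {ω | M < f ω} := by
        rw [integral_add (integrable_const _) i2, integral_indicator_const _ hs]
        simp [mul_comm]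
    _ ≤ M ^ a + K ^ a * p := by
        have := mul_le_mul_of_nonneg_left hp (pow_nonneg hK a)
        linarith

lemma mo_bd {f : Ω → ℝ} (hf : Measurable f) (f0 : ∀ ω, 0 ≤ f ω) {K : ℝ}
    (hfK : ∀ ω, f ω ≤ K) (g : Ω → ℝ) (c : ℝ) (a : ℕ) (hg : ∀ ω, |g ω| ≤ c * f ω ^ a) :
    |∫ ω, g ω ∂P| ≤ c * ∫ ω, f ω ^ a ∂P := by
  have hi : Integrable (fun ω => c * f ω ^ a) P := (mo_pow hf f0 hfK a).const_mul c
  rw [← integral_const_mul, ← Real.norm_eq_abs]
  exact norm_integral_le_of_norm_le hi (ae_of_all _ fun ω => by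
    rw [Real.norm_eq_abs]; exact hg ω)

lemma mo_split {I : Type} [Fintype I] {φ : I → Ω → ℝ} {Si : Ω → ℝ} {q : I → ℝ} {K B D : ℝ}
    (hφ : ∀ i, Measurable (φ i)) (hS : Measurable Si) (hφK : ∀ i ω, |φ i ω| ≤ K)
    (hD : ∀ ω, |Si ω - ∑ m, q m * φ m ω| ≤ D) {w : Ω → ℝ} (hw : Measurable w) (hB : 0 ≤ B)
    (hwB : ∀ ω, |w ω| ≤ B) :
    ∫ ω, w ω * Si ω ∂P = ∑ m, q m * ∫ ω, w ω * φ m ω ∂P +
      ∫ ω, w ω * (Si ω - ∑ m, q m * φ m ω) ∂P := by
  have i1 : ∀ m, Integrable (fun ω => w ω * φ m ω) P := fun m =>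
    mo_int (hw.mul (hφ m)) (B * K) fun ω => by
      rw [abs_mul]
      exact mul_le_mul (hwB ω) (hφK m ω) (abs_nonneg _) hB
  have m2 : Measurable fun ω => Si ω - ∑ m, q m * φ m ω :=
    hS.sub (Finset.measurable_sum _ fun m _ => (hφ m).const_mul (q m))
  have i2 : Integrable (fun ω => w ω * (Si ω - ∑ m, q m * φ m ω)) P :=
    mo_int (hw.mul m2) (B * D) fun ω => by
      rw [abs_mul]
      exact mul_le_mul (hwB ω) (hD ω) (abs_nonneg _) hB
  have i3 : Integrable (fun ω => ∑ m, q m * (w ω * φ m ω)) P :=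
    integrable_finsetSum _ fun m _ => (i1 m).const_mul (q m)
  have e1 : ∀ ω, w ω * Si ω = ∑ m, q m * (w ω * φ m ω) + w ω * (Si ω - ∑ m, q m * φ m ω) := by
    intro ω
    have : ∑ m, q m * (w ω * φ m ω) = w ω * ∑ m, q m * φ m ω := by
      rw [Finset.mul_sum]
      exact Finset.sum_congr rfl fun m _ => by ring
    rw [this]
    ring
  simp_rw [e1]
  rw [integral_add i3 i2, integral_finsetSum _ fun m _ => (i1 m).const_mul (q m)]
  simp_rw [integral_const_mul]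

end

lemma mo_num {K β M p : ℝ} (hK : 1 ≤ K) (hβ : 1 ≤ β) (hM : 0 ≤ M) (hp : 0 ≤ p) {E1 E3 E5 : ℝ}
    (h1 : E1 ≤ M + K * p) (h3 : E3 ≤ M ^ 3 + K ^ 3 * p) (h5 : E5 ≤ M ^ 5 + K ^ 5 * p) :
    K ^ 2 * (K * E1 + β * (K * E3)) ≤
      100 * K ^ 9 * (M + β * M ^ 3 + β ^ 2 * M ^ 5 + (1 + β + β ^ 2) * p) ∧
    3 * (K * (K ^ 2 * (K * E1 + β * (K * E3)))) +
      K ^ 2 * (β * (3 * K * E3) + β ^ 2 * (K * E5)) ≤
      100 * K ^ 9 * (M + β * M ^ 3 + β ^ 2 * M ^ 5 + (1 + β + β ^ 2) * p) := by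
  have hK0 : 0 ≤ K := by linarith
  have hβ0 : 0 ≤ β := by linarith
  have pw : ∀ a : ℕ, a ≤ 9 → K ^ a ≤ K ^ 9 := fun a ha => pow_le_pow_right₀ hK ha
  have aux : ∀ (a : ℕ), a ≤ 9 → ∀ t : ℝ, 0 ≤ t → K ^ a * t ≤ K ^ 9 * t := fun a ha t ht =>
    mul_le_mul_of_nonneg_right (pw a ha) ht
  have m3 : 0 ≤ β * M ^ 3 := by positivity
  have m5 : 0 ≤ β ^ 2 * M ^ 5 := by positivity
  have p1 : 0 ≤ β * p := by positivity
  have p2 : 0 ≤ β ^ 2 * p := by positivity
  have n1 : 0 ≤ K ^ 9 * M := by positivity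
  have n2 : 0 ≤ K ^ 9 * (β * M ^ 3) := by positivity
  have n3 : 0 ≤ K ^ 9 * (β ^ 2 * M ^ 5) := by positivity
  have n4 : 0 ≤ K ^ 9 * p := by positivity
  have n5 : 0 ≤ K ^ 9 * (β * p) := by positivity
  have n6 : 0 ≤ K ^ 9 * (β ^ 2 * p) := by positivity
  have b1 : K ^ 3 * E1 ≤ K ^ 3 * (M + K * p) := mul_le_mul_of_nonneg_left h1 (by positivity)
  have b1' : K ^ 4 * E1 ≤ K ^ 4 * (M + K * p) := mul_le_mul_of_nonneg_left h1 (by positivity)
  have b3 : K ^ 3 * β * E3 ≤ K ^ 3 * β * (M ^ 3 + K ^ 3 * p) :=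
    mul_le_mul_of_nonneg_left h3 (by positivity)
  have b3' : K ^ 4 * β * E3 ≤ K ^ 4 * β * (M ^ 3 + K ^ 3 * p) :=
    mul_le_mul_of_nonneg_left h3 (by positivity)
  have b5 : K ^ 3 * β ^ 2 * E5 ≤ K ^ 3 * β ^ 2 * (M ^ 5 + K ^ 5 * p) :=
    mul_le_mul_of_nonneg_left h5 (by positivity)
  constructor
  · have c1 := aux 3 (by norm_num) M hM
    have c2 := aux 4 (by norm_num) p hp
    have c3 := aux 3 (by norm_num) _ m3
    have c4 := aux 6 (by norm_num) _ p1
    nlinarith [b1, b3, c1, c2, c3, c4, n1, n2, n3, n4, n5, n6]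
  · have c1 := aux 4 (by norm_num) M hM
    have c2 := aux 5 (by norm_num) p hp
    have c3 := aux 4 (by norm_num) _ m3
    have c4 := aux 7 (by norm_num) _ p1
    have c5 := aux 3 (by norm_num) _ m3
    have c6 := aux 6 (by norm_num) _ p1
    have c7 := aux 3 (by norm_num) _ m5
    have c8 := aux 8 (by norm_num) _ p2
    nlinarith [b1', b3, b3', b5, c1, c2, c3, c4, c5, c6, c7, c8, n1, n2, n3, n4, n5, n6]

theorem tmo : S_MO := by
  intro Ω _ P _ I _ _ φ S r f Q C β K M p hK hβ hM hp hφ hS hr hf hφf hfK hSQ hrf hCQ hC hcard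
    hP sd1 sd3
  have hK0 : 0 ≤ K := by linarith
  have hβ0 : 0 ≤ β := by linarith
  rcases isEmpty_or_nonempty I with hI | hI
  · exact ⟨fun i => (hI.false i).elim, fun i => (hI.false i).elim⟩
  obtain ⟨i0⟩ := hI
  have f0 : ∀ ω, 0 ≤ f ω := fun ω => (abs_nonneg _).trans (hφf i0 ω)
  have hφK : ∀ i ω, |φ i ω| ≤ K := fun i ω => (hφf i ω).trans (hfK ω)
  have hrK : ∀ i j ω, |r i j ω| ≤ K * K := fun i j ω =>
    (hrf i j ω).trans (mul_le_mul_of_nonneg_left (hfK ω) hK0)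
  have hD : ∀ i ω, |S i ω - ∑ m, Q i m * φ m ω| ≤ K * K ^ 2 := fun i ω =>
    (hSQ i ω).trans (mul_le_mul_of_nonneg_left (pow_le_pow_left₀ (f0 ω) (hfK ω) 2) hK0)
  obtain ⟨E1, hE1⟩ : ∃ E1 : ℝ, E1 = ∫ ω, f ω ^ 1 ∂P := ⟨_, rfl⟩
  obtain ⟨E3, hE3⟩ : ∃ E3 : ℝ, E3 = ∫ ω, f ω ^ 3 ∂P := ⟨_, rfl⟩
  obtain ⟨E5, hE5⟩ : ∃ E5 : ℝ, E5 = ∫ ω, f ω ^ 5 ∂P := ⟨_, rfl⟩
  have l1 : E1 ≤ M + K * p := by
    have := mo_mom hf f0 hK0 hM hfK hP 1
    rw [← hE1, pow_one, pow_one] at this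
    exact this
  have l3 : E3 ≤ M ^ 3 + K ^ 3 * p := by rw [hE3]; exact mo_mom hf f0 hK0 hM hfK hP 3
  have l5 : E5 ≤ M ^ 5 + K ^ 5 * p := by rw [hE5]; exact mo_mom hf f0 hK0 hM hfK hP 5
  obtain ⟨num1, num2⟩ := mo_num hK hβ hM hp l1 l3 l5
  -- first part
  have part1 : ∀ n j, |β * ∫ ω, φ j ω * φ n ω ∂P - C n j| ≤ K ^ 2 * (K * E1 + β * (K * E3)) := by
    intro n j
    obtain ⟨e, he⟩ : ∃ e : I → ℝ, e = fun i => ∫ ω, r i j ω ∂P -
      β * ∫ ω, φ j ω * (S i ω - ∑ m, Q i m * φ m ω) ∂P := ⟨_, rfl⟩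
    have heq : ∀ i, ∑ m, Q i m * (β * ∫ ω, φ j ω * φ m ω ∂P) = (if i = j then 1 else 0) + e i := by
      intro i
      have h1 := sd1 i j
      rw [integral_add (integrable_const _) (mo_int (hr i j) (K * K) (hrK i j)),
        mo_split hφ (hS i) hφK (hD i) (hφ j) hK0 (hφK j)] at h1
      have h2 : ∑ m, Q i m * (β * ∫ ω, φ j ω * φ m ω ∂P) =
          β * ∑ m, Q i m * ∫ ω, φ j ω * φ m ω ∂P := by
        rw [Finset.mul_sum]
        exact Finset.sum_congr rfl fun m _ => by ring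
      rw [h2, he]
      simp only [integral_const, probReal_univ, one_smul] at h1
      linarith
    have hbound : ∀ i, |e i| ≤ K * E1 + β * (K * E3) := by
      intro i
      rw [he]
      have a1 : |∫ ω, r i j ω ∂P| ≤ K * E1 := by
        rw [hE1]
        exact mo_bd hf f0 hfK _ K 1 fun ω => by rw [pow_one]; exact hrf i j ω
      have a2 : |∫ ω, φ j ω * (S i ω - ∑ m, Q i m * φ m ω) ∂P| ≤ K * E3 := by
        rw [hE3]
        refine mo_bd hf f0 hfK _ K 3 fun ω => ?_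
        rw [abs_mul]
        calc |φ j ω| * |S i ω - ∑ m, Q i m * φ m ω| ≤ f ω * (K * f ω ^ 2) :=
              mul_le_mul (hφf j ω) (hSQ i ω) (abs_nonneg _) (f0 ω)
          _ = K * f ω ^ 3 := by ring
      calc |∫ ω, r i j ω ∂P - β * ∫ ω, φ j ω * (S i ω - ∑ m, Q i m * φ m ω) ∂P|
          ≤ |∫ ω, r i j ω ∂P| + |β * ∫ ω, φ j ω * (S i ω - ∑ m, Q i m * φ m ω) ∂P| := abs_sub _ _
        _ ≤ K * E1 + β * (K * E3) := by
            rw [abs_mul, abs_of_nonneg hβ0]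
            exact add_le_add a1 (mul_le_mul_of_nonneg_left a2 hβ0)
    have hx : β * ∫ ω, φ j ω * φ n ω ∂P = ∑ i, C n i * ((if i = j then 1 else 0) + e i) :=
      mo_solve Q C hCQ (fun m => β * ∫ ω, φ j ω * φ m ω ∂P)
        (fun i => (if i = j then 1 else 0) + e i) heq n
    have h4 : ∑ i, C n i * ((if i = j then 1 else 0) + e i) = C n j + ∑ i, C n i * e i := by
      simp_rw [mul_add]
      rw [Finset.sum_add_distrib]
      simp
    rw [hx, h4, add_sub_cancel_left]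
    exact mo_err C K hK0 hC hcard e _ hbound n
  refine ⟨fun i j => ?_, fun n j k l => ?_⟩
  · have h1 := part1 i j
    have h2 : ∀ ω, φ j ω * φ i ω = φ i ω * φ j ω := fun ω => mul_comm _ _
    simp_rw [h2] at h1
    exact h1.trans num1
  -- second part
  obtain ⟨e, he⟩ : ∃ e : I → ℝ, e = fun i =>
    β * (∫ ω, (r i j ω * φ k ω * φ l ω + φ j ω * r i k ω * φ l ω + φ j ω * φ k ω * r i l ω) ∂P) -
    β ^ 2 * ∫ ω, φ j ω * φ k ω * φ l ω * (S i ω - ∑ m, Q i m * φ m ω) ∂P := ⟨_, rfl⟩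
  have mjkl : Measurable fun ω => φ j ω * φ k ω * φ l ω := ((hφ j).mul (hφ k)).mul (hφ l)
  have bjkl : ∀ ω, |φ j ω * φ k ω * φ l ω| ≤ K * K * K := fun ω => by
    rw [abs_mul, abs_mul]
    exact mul_le_mul (mul_le_mul (hφK j ω) (hφK k ω) (abs_nonneg _) hK0) (hφK l ω) (abs_nonneg _)
      (by positivity)
  have ipair : ∀ a b, Integrable (fun ω => φ a ω * φ b ω) P := fun a b =>
    mo_int ((hφ a).mul (hφ b)) (K * K) fun ω => by
      rw [abs_mul]
      exact mul_le_mul (hφK a ω) (hφK b ω) (abs_nonneg _) hK0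
  have heq : ∀ i, ∑ m, Q i m * (β ^ 2 * ∫ ω, φ j ω * φ k ω * φ l ω * φ m ω ∂P) =
      ((if i = j then 1 else 0) * (β * ∫ ω, φ k ω * φ l ω ∂P) +
        (if i = k then 1 else 0) * (β * ∫ ω, φ j ω * φ l ω ∂P) +
        (if i = l then 1 else 0) * (β * ∫ ω, φ j ω * φ k ω ∂P)) + e i := by
    intro i
    have h1 := sd3 i j k l
    have hB : (0 : ℝ) ≤ K * K * K := by positivity
    rw [mo_split hφ (hS i) hφK (hD i) mjkl hB bjkl] at h1
    have irr : Integrable (fun ω => r i j ω * φ k ω * φ l ω + φ j ω * r i k ω * φ l ω +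
        φ j ω * φ k ω * r i l ω) P := by
      refine mo_int (((((hr i j).mul (hφ k)).mul (hφ l)).add (((hφ j).mul (hr i k)).mul
        (hφ l))).add (((hφ j).mul (hφ k)).mul (hr i l))) (3 * (K * K * (K * K))) fun ω => ?_
      have q1 : |r i j ω * φ k ω * φ l ω| ≤ K * K * (K * K) := by
        rw [abs_mul, abs_mul, mul_assoc]
        exact mul_le_mul (hrK i j ω) (mul_le_mul (hφK k ω) (hφK l ω) (abs_nonneg _) hK0)
          (by positivity) (by positivity)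
      have q2 : |φ j ω * r i k ω * φ l ω| ≤ K * K * (K * K) := by
        rw [abs_mul, abs_mul, mul_comm |φ j ω|, mul_assoc]
        exact mul_le_mul (hrK i k ω) (mul_le_mul (hφK j ω) (hφK l ω) (abs_nonneg _) hK0)
          (by positivity) (by positivity)
      have q3 : |φ j ω * φ k ω * r i l ω| ≤ K * K * (K * K) := by
        rw [abs_mul, abs_mul]
        exact mul_le_mul (mul_le_mul (hφK j ω) (hφK k ω) (abs_nonneg _) hK0) (hrK i l ω)
          (by positivity) (by positivity)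
      calc |r i j ω * φ k ω * φ l ω + φ j ω * r i k ω * φ l ω + φ j ω * φ k ω * r i l ω|
          ≤ |r i j ω * φ k ω * φ l ω| + |φ j ω * r i k ω * φ l ω| +
            |φ j ω * φ k ω * r i l ω| := abs_add_three _ _ _
        _ ≤ 3 * (K * K * (K * K)) := by linarith
    have h5 : ∫ ω, (((if i = j then 1 else 0) + r i j ω) * φ k ω * φ l ω +
        φ j ω * ((if i = k then 1 else 0) + r i k ω) * φ l ω +
        φ j ω * φ k ω * ((if i = l then 1 else 0) + r i l ω)) ∂P =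
        ((if i = j then 1 else 0) * (∫ ω, φ k ω * φ l ω ∂P) +
        (if i = k then 1 else 0) * (∫ ω, φ j ω * φ l ω ∂P) +
        (if i = l then 1 else 0) * (∫ ω, φ j ω * φ k ω ∂P)) +
        ∫ ω, (r i j ω * φ k ω * φ l ω + φ j ω * r i k ω * φ l ω + φ j ω * φ k ω * r i l ω) ∂P := by
      have g1 : Integrable (fun ω => (if i = j then (1 : ℝ) else 0) * (φ k ω * φ l ω)) P :=
        (ipair k l).const_mul _
      have g2 : Integrable (fun ω => (if i = k then (1 : ℝ) else 0) * (φ j ω * φ l ω)) P :=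
        (ipair j l).const_mul _
      have g3 : Integrable (fun ω => (if i = l then (1 : ℝ) else 0) * (φ j ω * φ k ω)) P :=
        (ipair j k).const_mul _
      have g12 : Integrable (fun ω => (if i = j then (1 : ℝ) else 0) * (φ k ω * φ l ω) +
        (if i = k then (1 : ℝ) else 0) * (φ j ω * φ l ω)) P := g1.add g2
      have g123 : Integrable (fun ω => (if i = j then (1 : ℝ) else 0) * (φ k ω * φ l ω) +
        (if i = k then (1 : ℝ) else 0) * (φ j ω * φ l ω) +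
        (if i = l then (1 : ℝ) else 0) * (φ j ω * φ k ω)) P := g12.add g3
      rw [← integral_const_mul, ← integral_const_mul, ← integral_const_mul,
        ← integral_add g1 g2, ← integral_add g12 g3, ← integral_add g123 irr]
      refine integral_congr_ae (ae_of_all _ fun ω => ?_)
      simp only
      ring
    rw [h5] at h1
    have h2 : ∑ m, Q i m * (β ^ 2 * ∫ ω, φ j ω * φ k ω * φ l ω * φ m ω ∂P) =
        β ^ 2 * ∑ m, Q i m * ∫ ω, φ j ω * φ k ω * φ l ω * φ m ω ∂P := by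
      rw [Finset.mul_sum]
      exact Finset.sum_congr rfl fun m _ => by ring
    rw [h2, he]
    linear_combination (-β) * h1
  have hbound : ∀ i, |e i| ≤ β * (3 * K * E3) + β ^ 2 * (K * E5) := by
    intro i
    rw [he]
    have a1 : |∫ ω, (r i j ω * φ k ω * φ l ω + φ j ω * r i k ω * φ l ω +
        φ j ω * φ k ω * r i l ω) ∂P| ≤ 3 * K * E3 := by
      rw [hE3]
      refine mo_bd hf f0 hfK _ (3 * K) 3 fun ω => ?_
      have hKf : 0 ≤ K * f ω := mul_nonneg hK0 (f0 ω)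
      have q1 : |r i j ω * φ k ω * φ l ω| ≤ K * f ω * (f ω * f ω) := by
        rw [abs_mul, abs_mul, mul_assoc]
        exact mul_le_mul (hrf i j ω) (mul_le_mul (hφf k ω) (hφf l ω) (abs_nonneg _) (f0 ω))
          (by positivity) hKf
      have q2 : |φ j ω * r i k ω * φ l ω| ≤ K * f ω * (f ω * f ω) := by
        rw [abs_mul, abs_mul, mul_comm |φ j ω|, mul_assoc]
        exact mul_le_mul (hrf i k ω) (mul_le_mul (hφf j ω) (hφf l ω) (abs_nonneg _) (f0 ω))
          (by positivity) hKf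
      have q3 : |φ j ω * φ k ω * r i l ω| ≤ K * f ω * (f ω * f ω) := by
        rw [abs_mul, abs_mul, mul_comm]
        exact mul_le_mul (hrf i l ω) (mul_le_mul (hφf j ω) (hφf k ω) (abs_nonneg _) (f0 ω))
          (by positivity) hKf
      calc |r i j ω * φ k ω * φ l ω + φ j ω * r i k ω * φ l ω + φ j ω * φ k ω * r i l ω|
          ≤ |r i j ω * φ k ω * φ l ω| + |φ j ω * r i k ω * φ l ω| +
            |φ j ω * φ k ω * r i l ω| := abs_add_three _ _ _
        _ ≤ 3 * (K * f ω * (f ω * f ω)) := by linarith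
        _ = 3 * K * f ω ^ 3 := by ring
    have a2 : |∫ ω, φ j ω * φ k ω * φ l ω * (S i ω - ∑ m, Q i m * φ m ω) ∂P| ≤ K * E5 := by
      rw [hE5]
      refine mo_bd hf f0 hfK _ K 5 fun ω => ?_
      rw [abs_mul, abs_mul, abs_mul]
      have f1 := f0 ω
      calc |φ j ω| * |φ k ω| * |φ l ω| * |S i ω - ∑ m, Q i m * φ m ω|
          ≤ f ω * f ω * f ω * (K * f ω ^ 2) := by
            refine mul_le_mul (mul_le_mul (mul_le_mul (hφf j ω) (hφf k ω) (abs_nonneg _) f1)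
              (hφf l ω) (abs_nonneg _) (by positivity)) (hSQ i ω) (abs_nonneg _) (by positivity)
        _ = K * f ω ^ 5 := by ring
    refine (abs_sub _ _).trans ?_
    rw [abs_mul, abs_mul, abs_of_nonneg hβ0, abs_of_nonneg (pow_nonneg hβ0 2)]
    exact add_le_add (mul_le_mul_of_nonneg_left a1 hβ0)
      (mul_le_mul_of_nonneg_left a2 (pow_nonneg hβ0 2))
  have hx : β ^ 2 * ∫ ω, φ j ω * φ k ω * φ l ω * φ n ω ∂P =
      ∑ i, C n i * (((if i = j then 1 else 0) * (β * ∫ ω, φ k ω * φ l ω ∂P) +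
        (if i = k then 1 else 0) * (β * ∫ ω, φ j ω * φ l ω ∂P) +
        (if i = l then 1 else 0) * (β * ∫ ω, φ j ω * φ k ω ∂P)) + e i) :=
    mo_solve Q C hCQ (fun m => β ^ 2 * ∫ ω, φ j ω * φ k ω * φ l ω * φ m ω ∂P) _ heq n
  have h4 : ∑ i, C n i * (((if i = j then 1 else 0) * (β * ∫ ω, φ k ω * φ l ω ∂P) +
        (if i = k then 1 else 0) * (β * ∫ ω, φ j ω * φ l ω ∂P) +
        (if i = l then 1 else 0) * (β * ∫ ω, φ j ω * φ k ω ∂P)) + e i) =
      C n j * (β * ∫ ω, φ k ω * φ l ω ∂P) + C n k * (β * ∫ ω, φ j ω * φ l ω ∂P) +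
        C n l * (β * ∫ ω, φ j ω * φ k ω ∂P) + ∑ i, C n i * e i := by
    simp_rw [mul_add]
    rw [Finset.sum_add_distrib, Finset.sum_add_distrib, Finset.sum_add_distrib]
    simp
  rw [h4] at hx
  have h7 : ∀ ω, φ n ω * φ j ω * φ k ω * φ l ω = φ j ω * φ k ω * φ l ω * φ n ω := fun ω => by ring
  simp_rw [h7]
  rw [hx]
  have d1 := part1 l k
  have d2 := part1 l j
  have d3 := part1 k j
  -- `part1 l k : |β E[φ_k φ_l] - C l k|`; the statement needs `C k l`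
  have s1 := part1 k l
  have s2 := part1 j l
  have s3 := part1 j k
  have c1 : ∀ ω, φ l ω * φ k ω = φ k ω * φ l ω := fun ω => mul_comm _ _
  have c2 : ∀ ω, φ l ω * φ j ω = φ j ω * φ l ω := fun ω => mul_comm _ _
  have c3 : ∀ ω, φ k ω * φ j ω = φ j ω * φ k ω := fun ω => mul_comm _ _
  simp_rw [c1] at s1
  simp_rw [c2] at s2
  simp_rw [c3] at s3
  have g := mo_err C K hK0 hC hcard e _ hbound n
  obtain ⟨T, hT⟩ : ∃ T : ℝ, T = K ^ 2 * (K * E1 + β * (K * E3)) := ⟨_, rfl⟩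
  rw [← hT] at s1 s2 s3 num2
  have mulb : ∀ a x : ℝ, |a| ≤ K → |x| ≤ T → |a * x| ≤ K * T := fun a x ha hx' => by
    rw [abs_mul]
    exact mul_le_mul ha hx' (abs_nonneg _) hK0
  have t1 := mulb _ _ (hC n j) s1
  have t2 := mulb _ _ (hC n k) s2
  have t3 := mulb _ _ (hC n l) s3
  have e1 : C n j * (β * ∫ ω, φ k ω * φ l ω ∂P) + C n k * (β * ∫ ω, φ j ω * φ l ω ∂P) +
        C n l * (β * ∫ ω, φ j ω * φ k ω ∂P) + ∑ i, C n i * e i -
        (C n j * C k l + C n k * C j l + C n l * C j k) =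
      C n j * (β * ∫ ω, φ k ω * φ l ω ∂P - C k l) + C n k * (β * ∫ ω, φ j ω * φ l ω ∂P - C j l) +
        C n l * (β * ∫ ω, φ j ω * φ k ω ∂P - C j k) + ∑ i, C n i * e i := by ring
  rw [e1]
  rw [abs_le] at t1 t2 t3 g ⊢
  constructor
  · linarith [t1.1, t2.1, t3.1, g.1, num2]
  · linarith [t1.2, t2.2, t3.2, g.2, num2]

end Pool.Agent.H664.AF
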